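import Pool.Agent.Helper74.HG.GoalsG

/-!
# Project HG, part 3, packet ZISG: the global zeta function and isomorphisms over `ℂ`

This is `Pool/Agent/Helper43/HG/ZIS.lean` (by helper43) without the conditions at the origin.
-/

set_option autoImplicit false

namespace Pool.Agent.Helper94.HG.ZISG

open Pool.Agent.Helper74.HG MvPolynomial

/-- the number of arcs and inverse substitutions -/
lemma cnt_eq (K : Type) [Field K] {σ τ : Type} (P : σ → MvPolynomial τ K)
    (Q : τ → MvPolynomial σ K) (hPQ : ∀ j, bind₁ P (Q j) = X j)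
    (hQP : ∀ i, bind₁ Q (P i) = X i) (G : MvPolynomial σ K) (m : ℕ) :
    cntG K (bind₁ P G) m = cntG K G m := by
  let e : (τ → Tr K m) ≃ (σ → Tr K m) :=
    { toFun := fun x i => aeval x (P i)
      invFun := fun y j => aeval y (Q j)
      left_inv := fun x => by
        funext j
        show aeval (fun i => aeval x (P i)) (Q j) = x j
        rw [← aeval_bind₁, hPQ, aeval_X]
      right_inv := fun y => by
        funext i
        show aeval (fun j => aeval y (Q j)) (P i) = y i
        rw [← aeval_bind₁, hQP, aeval_X] }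
  have h1 : JetG K (bind₁ P G) m = e.symm '' JetG K G m := by
    rw [Equiv.image_symm_eq_preimage]
    ext x
    show (tt K m * aeval x (bind₁ P G) = 0 ∧ aeval x (bind₁ P G) ≠ 0) ↔
      (tt K m * aeval (fun i => aeval x (P i)) G = 0 ∧ aeval (fun i => aeval x (P i)) G ≠ 0)
    rw [aeval_bind₁]
  unfold cntG
  rw [h1]
  exact Set.ncard_image_of_injective _ e.symm.injective

/-- the numbers of variables -/
lemma card_eq {σ τ : Type} [Fintype σ] [Fintype τ]
    (φ : MvPolynomial σ ℂ ≃ₐ[ℂ] MvPolynomial τ ℂ) : Fintype.card σ = Fintype.card τ := by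
  have h := φ.trdeg_eq
  rw [MvPolynomial.trdeg_of_isDomain, MvPolynomial.trdeg_of_isDomain] at h
  simpa using h

lemma exists_lift {σ : Type} (s : Finset ℂ) (F : MvPolynomial σ ℂ)
    (h : ∀ c ∈ F.coeffs, c ∈ s) : ∃ G : MvPolynomial σ (Rg s), map (Rg s).subtype G = F := by
  have h1 : F ∈ Set.range (map (Rg s).subtype) := by
    rw [mem_range_map_iff_coeffs_subset]
    intro c hc
    exact ⟨⟨c, Subring.subset_closure (h c hc)⟩, rfl⟩
  exact h1

lemma exists_incl {R : Type} [CommRing R] (S S' : Subring R) (hs : S ≤ S') :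
    ∃ ι : S →+* S', S'.subtype.comp ι = S.subtype :=
  ⟨Subring.inclusion hs, RingHom.ext fun _ => rfl⟩

/-- the statement for abstract rings -/
lemma core {σ τ : Type} [Fintype σ] [Fintype τ]
    (φ : MvPolynomial σ ℂ ≃ₐ[ℂ] MvPolynomial τ ℂ) (f : MvPolynomial σ ℂ)
    {A A' : Type} [CommRing A] [CommRing A'] (ι : A →+* A') (u : A' →+* ℂ)
    (hu : Function.Injective u) (g : MvPolynomial σ A) (hg : map (u.comp ι) g = f)
    (p : σ → MvPolynomial τ A') (hp : ∀ i, map u (p i) = φ (X i))
    (q : τ → MvPolynomial σ A') (hq : ∀ j, map u (q j) = φ.symm (X j)) :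
    ∃ G : MvPolynomial τ A', map u G = φ f ∧
      ∀ (K : Type) [Field K] [Finite K] (ψ : A' →+* K) (L : List Str),
        FormG K (map (ψ.comp ι) g) L → FormG K (map ψ G) L := by
  have hφe : ∀ F : MvPolynomial σ ℂ, bind₁ (fun i => φ (X i)) F = φ F := by
    intro F
    have h : (bind₁ (fun i => φ (X i)) : MvPolynomial σ ℂ →ₐ[ℂ] MvPolynomial τ ℂ) =
        φ.toAlgHom := by
      apply MvPolynomial.algHom_ext
      intro i
      simp
    exact DFunLike.congr_fun h F
  have hφs : ∀ F : MvPolynomial τ ℂ, bind₁ (fun j => φ.symm (X j)) F = φ.symm F := by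
    intro F
    have h : (bind₁ (fun j => φ.symm (X j)) : MvPolynomial τ ℂ →ₐ[ℂ] MvPolynomial σ ℂ) =
        φ.symm.toAlgHom := by
      apply MvPolynomial.algHom_ext
      intro i
      simp
    exact DFunLike.congr_fun h F
  have hPQ : ∀ j, bind₁ p (q j) = X j := by
    intro j
    apply map_injective u hu
    rw [map_bind₁, map_X]
    simp only [hp, hq]
    rw [hφe, AlgEquiv.apply_symm_apply]
  have hQP : ∀ i, bind₁ q (p i) = X i := by
    intro i
    apply map_injective u hu
    rw [map_bind₁, map_X]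
    simp only [hp, hq]
    rw [hφs, AlgEquiv.symm_apply_apply]
  refine ⟨bind₁ p (map ι g), ?_, ?_⟩
  · rw [map_bind₁, map_map, hg]
    simp only [hp]
    rw [hφe]
  · intro K _ _ ψ L hL
    obtain ⟨M, hM, hE, hc⟩ := hL
    refine ⟨M, hM, hE, fun E _ _ _ m => ?_⟩
    have h1 : cntG E (map (algebraMap K E) (map ψ (bind₁ p (map ι g)))) m =
        cntG E (map (algebraMap K E) (map (ψ.comp ι) g)) m := by
      have e1 : map (algebraMap K E) (map ψ (bind₁ p (map ι g))) =
          bind₁ (fun i => map ((algebraMap K E).comp ψ) (p i))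
            (map ((algebraMap K E).comp ψ) (map ι g)) := by
        rw [map_map, map_bind₁]
      have e2 : map (algebraMap K E) (map (ψ.comp ι) g) =
          map ((algebraMap K E).comp ψ) (map ι g) := by
        rw [map_map, map_map, RingHom.comp_assoc]
      rw [e1, e2]
      refine cnt_eq E _ (fun j => map ((algebraMap K E).comp ψ) (q j)) ?_ ?_ _ m
      · intro j
        rw [← map_bind₁, hPQ, map_X]
      · intro i
        rw [← map_bind₁, hQP, map_X]
    rw [h1, ← card_eq φ]
    exact hc E m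

theorem t : Pool.Agent.Helper74.HG.ZISG := by
  classical
  intro σ τ _ _ φ f Z hZ
  obtain ⟨s, g, L, hg, hL, hF, hZ⟩ := hZ
  obtain ⟨s', hs, hp, hq⟩ : ∃ s' : Finset ℂ, (s : Set ℂ) ⊆ (s' : Set ℂ) ∧
      (∀ i, ∃ p : MvPolynomial τ (Rg s'), map (Rg s').subtype p = φ (X i)) ∧
      (∀ j, ∃ q : MvPolynomial σ (Rg s'), map (Rg s').subtype q = φ.symm (X j)) := by
    refine ⟨s ∪ (Finset.univ.biUnion (fun i => (φ (X i)).coeffs) ∪
      Finset.univ.biUnion (fun j => (φ.symm (X j)).coeffs)), ?_, ?_, ?_⟩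
    · intro c hc
      exact Finset.mem_union_left _ hc
    · intro i
      refine exists_lift _ _ fun c hc => ?_
      exact Finset.mem_union_right _ (Finset.mem_union_left _
        (Finset.mem_biUnion.2 ⟨i, Finset.mem_univ _, hc⟩))
    · intro j
      refine exists_lift _ _ fun c hc => ?_
      exact Finset.mem_union_right _ (Finset.mem_union_right _
        (Finset.mem_biUnion.2 ⟨j, Finset.mem_univ _, hc⟩))
  obtain ⟨ι, hι⟩ : ∃ ι : Rg s →+* Rg s', (Rg s').subtype.comp ι = (Rg s).subtype :=
    exists_incl (Rg s) (Rg s') (Subring.closure_mono hs)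
  choose p hp using hp
  choose q hq using hq
  obtain ⟨G, hG, hGF⟩ := core φ f ι (Rg s').subtype Subtype.val_injective g
    (by rw [hι]; exact hg) p hp q hq
  exact ⟨s', G, L, hG, hL, fun K _ _ ψ => hGF K ψ L (hF K (ψ.comp ι)), hZ⟩

end Pool.Agent.Helper94.HG.ZISG
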